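import Mathlib

set_option autoImplicit false

/-! # The neighbour-locating chromatic number of Mycielski graphs -/

namespace Pool.Agent.Results.MP_03cbb9_co.TreeCounterexample

/-- a neighbour-locating colouring: proper, and two distinct vertices of the same colour have
different sets of colours on their open neighbourhoods -/
def IsNL {V C : Type} (G : SimpleGraph V) (c : V → C) : Prop :=
  (∀ u v, G.Adj u v → c u ≠ c v) ∧
    ∀ u v, u ≠ v → c u = c v → c '' G.neighborSet u ≠ c '' G.neighborSet v

/-- the neighbour-locating chromatic number -/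
noncomputable def chiNL {V : Type} (G : SimpleGraph V) : ℕ :=
  sInf {k : ℕ | ∃ c : V → Fin k, IsNL G c}

/-- the adjacency of the Mycielski graph: `inl (inl i)` is `u_i`, `inl (inr i)` is `u_i'` and
`inr ()` is `w` -/
def MAdj {V : Type} (G : SimpleGraph V) : (V ⊕ V) ⊕ Unit → (V ⊕ V) ⊕ Unit → Prop
  | .inl (.inl a), .inl (.inl b) => G.Adj a b
  | .inl (.inl a), .inl (.inr b) => G.Adj a b
  | .inl (.inr a), .inl (.inl b) => G.Adj a b
  | .inl (.inr _), .inr _ => True
  | .inr _, .inl (.inr _) => True
  | .inl (.inl _), .inr _ => False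
  | .inr _, .inl (.inl _) => False
  | .inl (.inr _), .inl (.inr _) => False
  | .inr _, .inr _ => False

/-- the Mycielski graph -/
def mycielski {V : Type} (G : SimpleGraph V) : SimpleGraph ((V ⊕ V) ⊕ Unit) where
  Adj := MAdj G
  symm := ⟨by
    rintro ((a | a) | a) ((b | b) | b) h <;> simp only [MAdj] at h ⊢ <;> exact G.adj_symm h⟩
  loopless := ⟨by
    rintro ((a | a) | a) h <;> simp only [MAdj] at h <;> exact G.loopless.irrefl _ h⟩

/-- decidable form of `IsNL` -/
theorem isNL_iff {V C : Type} (G : SimpleGraph V) (c : V → C) :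
    IsNL G c ↔ (∀ u v, G.Adj u v → c u ≠ c v) ∧
      ∀ u v, u ≠ v → c u = c v →
        ¬ ∀ i, (∃ w, G.Adj u w ∧ c w = i) ↔ (∃ w, G.Adj v w ∧ c w = i) := by
  unfold IsNL
  simp only [Set.ext_iff, Set.mem_image, SimpleGraph.mem_neighborSet, ne_eq]

/-- the edges of the tree -/
def adjT (u v : Fin 8) : Bool :=
  [(0, 2), (0, 3), (0, 6), (0, 7), (1, 3), (1, 5), (2, 4),
   (2, 0), (3, 0), (6, 0), (7, 0), (3, 1), (5, 1), (4, 2)].contains (u.val, v.val)

/-- the tree on `8` vertices -/
def T : SimpleGraph (Fin 8) where
  Adj u v := adjT u v = true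
  symm := ⟨by decide⟩
  loopless := ⟨by decide⟩

instance : DecidableRel T.Adj := fun u v => inferInstanceAs (Decidable (adjT u v = true))

instance : DecidableRel (mycielski T).Adj
  | .inl (.inl a), .inl (.inl b) => inferInstanceAs (Decidable (adjT a b = true))
  | .inl (.inl a), .inl (.inr b) => inferInstanceAs (Decidable (adjT a b = true))
  | .inl (.inr a), .inl (.inl b) => inferInstanceAs (Decidable (adjT a b = true))
  | .inl (.inr _), .inr _ => isTrue trivial
  | .inr _, .inl (.inr _) => isTrue trivial
  | .inl (.inl _), .inr _ => isFalse id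
  | .inr _, .inl (.inl _) => isFalse id
  | .inl (.inr _), .inl (.inr _) => isFalse id
  | .inr _, .inr _ => isFalse id

/-- a neighbour-locating colouring of the Mycielski graph of the tree with four colours -/
def col : (Fin 8 ⊕ Fin 8) ⊕ Unit → Fin 4
  | .inl (.inl i) => ![0, 3, 1, 2, 2, 2, 1, 2] i
  | .inl (.inr i) => ![0, 3, 3, 2, 0, 0, 2, 3] i
  | .inr _ => 1

theorem col_isNL : IsNL (mycielski T) col := by
  rw [isNL_iff]
  decide +kernel

/-- the same for the tree, with a colouring into `4` colours -/
theorem tree_four : ∃ c : Fin 8 → Fin 4, IsNL T c := by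
  refine ⟨![0, 1, 1, 2, 2, 3, 3, 2], ?_⟩
  rw [isNL_iff]
  decide +kernel

/-- the boolean check -/
def chk (c : Fin 8 → Fin 3) : Bool :=
  (List.finRange 8).all fun u => (List.finRange 8).all fun v =>
    (!(adjT u v) || (c u != c v)) &&
      ((u == v) || (c u != c v) || ((List.finRange 3).any fun i =>
        ((List.finRange 8).any fun w => adjT u w && (c w == i)) !=
          ((List.finRange 8).any fun w => adjT v w && (c w == i))))

theorem chk_of_isNL (c : Fin 8 → Fin 3) (h : IsNL T c) : chk c = true := by
  rw [isNL_iff] at h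
  obtain ⟨h1, h2⟩ := h
  simp only [chk, List.all_eq_true, List.mem_finRange, forall_const, Bool.and_eq_true,
    Bool.or_eq_true, Bool.not_eq_true', bne_iff_ne, ne_eq, beq_iff_eq, List.any_eq_true, true_and]
  intro u v
  refine ⟨?_, ?_⟩
  · by_cases hadj : adjT u v = true
    · exact Or.inr (h1 u v hadj)
    · exact Or.inl (by simpa using hadj)
  · by_cases huv : u = v
    · exact Or.inl (Or.inl huv)
    by_cases hc : c u = c v
    · right
      have := h2 u v huv hc
      by_contra hcon
      push Not at hcon
      refine this (fun i => ?_)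
      have hi := hcon i
      rw [Bool.eq_iff_iff, List.any_eq_true, List.any_eq_true] at hi
      simpa [T] using hi
    · exact Or.inl (Or.inr hc)

theorem no_three : ∀ a b c d e f g h : Fin 3, chk ![a, b, c, d, e, f, g, h] = false := by
  decide +kernel

theorem not_three (c : Fin 8 → Fin 3) : ¬ IsNL T c := by
  intro h
  have h1 := chk_of_isNL c h
  have h2 : c = ![c 0, c 1, c 2, c 3, c 4, c 5, c 6, c 7] := by
    ext i
    fin_cases i <;> rfl
  rw [h2, no_three] at h1
  exact absurd h1 (by decide)

/-- neighbour-locating colourings with fewer colours are neighbour-locating colourings with more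
colours -/
theorem IsNL.mono {V C D : Type} {G : SimpleGraph V} {c : V → C} (h : IsNL G c) {f : C → D}
    (hf : Function.Injective f) : IsNL G (f ∘ c) := by
  refine ⟨fun u v huv he => h.1 u v huv (hf he), fun u v huv he hs => ?_⟩
  refine h.2 u v huv (hf he) ?_
  rw [Set.image_comp, Set.image_comp] at hs
  exact hf.image_injective hs

theorem chiNL_T : chiNL T = 4 := by
  apply le_antisymm
  · exact Nat.sInf_le tree_four
  · refine le_csInf ⟨4, tree_four⟩ ?_
    rintro k ⟨c, hc⟩
    by_contra hk
    push Not at hk
    exact not_three _ (hc.mono (f := Fin.castLE (by omega)) (Fin.castLE_injective _))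

theorem T_isTree : T.IsTree := by
  have key : ∀ v : Fin 8, T.Reachable 0 v := by
    have h2 : T.Adj 0 2 := by decide
    have h3 : T.Adj 0 3 := by decide
    have h6 : T.Adj 0 6 := by decide
    have h7 : T.Adj 0 7 := by decide
    have h1 : T.Adj 3 1 := by decide
    have h5 : T.Adj 1 5 := by decide
    have h4 : T.Adj 2 4 := by decide
    intro v
    fin_cases v
    · exact SimpleGraph.Reachable.refl _
    · exact h3.reachable.trans h1.reachable
    · exact h2.reachable
    · exact h3.reachable
    · exact h2.reachable.trans h4.reachable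
    · exact (h3.reachable.trans h1.reachable).trans h5.reachable
    · exact h6.reachable
    · exact h7.reachable
  rw [SimpleGraph.isTree_iff_connected_and_card]
  refine ⟨{ preconnected := fun u v => (key u).symm.trans (key v), nonempty := ⟨0⟩ }, ?_⟩
  rw [Nat.card_eq_fintype_card, ← SimpleGraph.edgeFinset_card]
  simp only [Nat.card_eq_fintype_card, Fintype.card_fin]
  decide +kernel

/-- **Theorem.** There is a tree `T` on `8` vertices with `χ_NL(T) = 4` and `χ_NL(μ(T)) ≤ 4`. -/
theorem result : ∃ T : SimpleGraph (Fin 8), T.IsTree ∧ chiNL T = 4 ∧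
    chiNL (mycielski T) ≤ 4 ∧ chiNL (mycielski T) ≠ chiNL T + 1 := by
  have h : chiNL (mycielski T) ≤ 4 := Nat.sInf_le ⟨col, col_isNL⟩
  refine ⟨T, T_isTree, chiNL_T, h, ?_⟩
  rw [chiNL_T]
  omega

end Pool.Agent.Results.MP_03cbb9_co.TreeCounterexample
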